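import Pool.Agent.MP_54e5d7_al.atc.Bridge0

/-!
PROJECT ATC, row DIM: the functional analytic core.
-/

set_option autoImplicit false
open scoped ENNReal NNReal InnerProductSpace ComplexConjugate
open MeasureTheory

namespace Pool.Agent.MP_54e5d7_al.Atc

theorem memlp_two {ι : Type*} {E : ι → Type*} [∀ i, NormedAddCommGroup (E i)] {f : ∀ i, E i} :
    Memℓp f 2 ↔ Summable fun i => ‖f i‖ ^ 2 := by
  rw [memℓp_gen_iff (by norm_num)]
  simp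

theorem lp_hasSum_sq {ι : Type*} {E : ι → Type*} [∀ i, NormedAddCommGroup (E i)] (x : lp E 2) :
    HasSum (fun i => ‖x i‖ ^ 2) (‖x‖ ^ 2) := by
  simpa using lp.hasSum_norm (p := 2) (by norm_num) x

theorem inner_toLp {Ω : Type*} [MeasurableSpace Ω] {ν : Measure Ω} {f g : Ω → ℂ}
    (hf : MemLp f 2 ν) (hg : MemLp g 2 ν) :
    ⟪hf.toLp f, hg.toLp g⟫_ℂ = ∫ z, conj (f z) * g z ∂ν := by
  rw [L2.inner_def]
  refine integral_congr_ae ?_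
  filter_upwards [hf.coeFn_toLp, hg.coeFn_toLp] with z h1 h2
  rw [h1, h2, RCLike.inner_apply']

theorem norm_toLp_sq {Ω : Type*} [MeasurableSpace Ω] {ν : Measure Ω} {f : Ω → ℂ}
    (hf : MemLp f 2 ν) : ‖hf.toLp f‖ ^ 2 = ∫ z, ‖f z‖ ^ 2 ∂ν := by
  have h : ((‖hf.toLp f‖ ^ 2 : ℝ) : ℂ) = ((∫ z, ‖f z‖ ^ 2 ∂ν : ℝ) : ℂ) := by
    rw [← integral_complex_ofReal]
    have h1 := inner_toLp hf hf
    rw [inner_self_eq_norm_sq_to_K] at h1
    simp only [Complex.conj_mul'] at h1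
    push_cast
    exact h1
  exact_mod_cast h

/-- left translation on square-summable vectors -/
theorem exists_transl {G : Type} [Group G] {k : ℕ}
    (W : Submodule ℂ (lp (fun _ : Fin k × G => ℂ) 2))
    (hWi : ∀ (g : G) (x y : lp (fun _ : Fin k × G => ℂ) 2), x ∈ W →
      (∀ i h, y (i, h) = x (i, g * h)) → y ∈ W) (g : G) :
    ∃ τ : W ≃ₗᵢ[ℂ] W, ∀ (x : W) i h, (τ x).1 (i, h) = x.1 (i, g * h) := by
  have key : ∀ (a : G) (x : W), ∃ y : W, (∀ i h, y.1 (i, h) = x.1 (i, a * h)) ∧ ‖y‖ = ‖x‖ := by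
    intro a x
    let e : Fin k × G ≃ Fin k × G := (Equiv.refl _).prodCongr (Equiv.mulLeft a)
    have h1 : HasSum (fun p => ‖x.1 (e p)‖ ^ 2) (‖x.1‖ ^ 2) :=
      (e.hasSum_iff (f := fun p => ‖x.1 p‖ ^ 2)).2 (lp_hasSum_sq x.1)
    let y : lp (fun _ : Fin k × G => ℂ) 2 := ⟨fun p => x.1 (e p), memlp_two.2 h1.summable⟩
    refine ⟨⟨y, hWi a x.1 y x.2 fun _ _ => rfl⟩, fun _ _ => rfl, ?_⟩
    exact (sq_eq_sq₀ (norm_nonneg _) (norm_nonneg _)).1 ((lp_hasSum_sq y).unique h1)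
  choose t ht hn using key
  have hext : ∀ x y : W, (∀ i h, x.1 (i, h) = y.1 (i, h)) → x = y := fun x y h =>
    Subtype.ext (lp.ext (funext fun p => h p.1 p.2))
  let L : W →ₗᵢ[ℂ] W :=
    { toFun := t g
      map_add' := fun x y => hext _ _ fun i h => by simp [ht]
      map_smul' := fun c x => hext _ _ fun i h => by simp [ht]
      norm_map' := hn g }
  refine ⟨LinearIsometryEquiv.ofSurjective L fun y => ⟨t g⁻¹ y, hext _ _ fun i h => ?_⟩,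
    fun x i h => ht g x i h⟩
  show (t g (t g⁻¹ y)).1 (i, h) = _
  rw [ht, ht, inv_mul_cancel_left]

theorem core {G : Type} [Group G] [Countable G] {k : ℕ} [DecidableEq (Fin k × G)]
    (W : Submodule ℂ (lp (fun _ : Fin k × G => ℂ) 2))
    (hWc : IsClosed (W : Set (lp (fun _ : Fin k × G => ℂ) 2)))
    (hWi : ∀ (g : G) (x y : lp (fun _ : Fin k × G => ℂ) 2), x ∈ W →
      (∀ i h, y (i, h) = x (i, g * h)) → y ∈ W)
    {Ω : Type} [MeasurableSpace Ω] (ν : Measure Ω) (Φ : W →ₗ[ℂ] G → Ω → ℂ)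
    (hm : ∀ x q, MemLp (Φ x q) 2 ν)
    (he : ∀ (g : G) (x y : W), (∀ i h, y.1 (i, h) = x.1 (i, g * h)) → ∀ q, Φ y q = Φ x (g * q))
    (hs : ∀ x, Summable fun q => ∫ z, ‖Φ x q z‖ ^ 2 ∂ν) (C c : ℝ)
    (hup : ∀ x, ∑' q, ∫ z, ‖Φ x q z‖ ^ 2 ∂ν ≤ C * ‖x‖ ^ 2)
    (hlow : ∀ x, ‖x‖ ^ 2 ≤ c * ∑' q, ∫ z, ‖Φ x q z‖ ^ 2 ∂ν) (K : Ω → ℂ)
    (hK : ∀ᵐ z ∂ν, ∃ κ : W, K z = Φ κ 1 z ∧
      ∀ x, HasSum (fun q => ∫ w, conj (Φ κ q w) * Φ x q w ∂ν) (Φ x 1 z)) :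
    ((∑ i : Fin k, (1 - (Metric.infDist
      (lp.single 2 (i, (1 : G)) (1 : ℂ) : lp (fun _ : Fin k × G => ℂ) 2)
      (W : Set (lp (fun _ : Fin k × G => ℂ) 2))) ^ 2) : ℝ) : ℂ) = ∫ z, K z ∂ν := by
  have : CompleteSpace W := hWc.completeSpace_coe
  let R₀ : W →ₗ[ℂ] lp (fun _ : G => Lp ℂ 2 ν) 2 :=
    { toFun := fun x => ⟨fun q => (hm x q).toLp _, memlp_two.2 (by
        simpa only [norm_toLp_sq] using hs x)⟩
      map_add' := fun x y => lp.ext (funext fun q => by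
        show (hm (x + y) q).toLp _ = (hm x q).toLp _ + (hm y q).toLp _
        rw [← MemLp.toLp_add]
        exact MemLp.toLp_congr _ _ (by rw [map_add]; rfl))
      map_smul' := fun a x => lp.ext (funext fun q => by
        show (hm (a • x) q).toLp _ = a • (hm x q).toLp _
        rw [← MemLp.toLp_const_smul]
        exact MemLp.toLp_congr _ _ (by rw [map_smul]; rfl)) }
  have hR₀ : ∀ x, HasSum (fun q => ∫ z, ‖Φ x q z‖ ^ 2 ∂ν) (‖R₀ x‖ ^ 2) := fun x => by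
    have h := lp_hasSum_sq (R₀ x)
    have h2 : ∀ q, ‖R₀ x q‖ ^ 2 = ∫ z, ‖Φ x q z‖ ^ 2 ∂ν := fun q => norm_toLp_sq (hm x q)
    simpa only [h2] using h
  let R : W →L[ℂ] lp (fun _ : G => Lp ℂ 2 ν) 2 := R₀.mkContinuous (Real.sqrt |C|) fun x => by
    refine abs_le_of_sq_le_sq' ?_ (by positivity) |>.2
    rw [mul_pow, Real.sq_sqrt (abs_nonneg _), ← (hR₀ x).tsum_eq]
    exact (hup x).trans (mul_le_mul_of_nonneg_right (le_abs_self _) (sq_nonneg _))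
  have hR : ∀ x, HasSum (fun q => ∫ z, ‖Φ x q z‖ ^ 2 ∂ν) (‖R x‖ ^ 2) := hR₀
  have hRi : ∀ x y, HasSum (fun q => ∫ w, conj (Φ x q w) * Φ y q w ∂ν) ⟪R x, R y⟫_ℂ := fun x y => by
    have h := lp.hasSum_inner (𝕜 := ℂ) (R x) (R y)
    have h2 : ∀ q, ⟪R x q, R y q⟫_ℂ = ∫ w, conj (Φ x q w) * Φ y q w ∂ν := fun q =>
      inner_toLp (hm x q) (hm y q)
    simpa only [h2] using h
  obtain ⟨Q, hQs, hQn, hQe⟩ := ATC.polar R c fun x => by rw [← (hR x).tsum_eq]; exact hlow x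
  choose τ hτ using exists_transl W hWi
  have hτR : ∀ g x, ‖R (τ g x)‖ = ‖R x‖ := fun g x => by
    refine (sq_eq_sq₀ (norm_nonneg _) (norm_nonneg _)).1 ((hR (τ g x)).unique ?_)
    simp only [he g x _ (hτ g x)]
    exact ((Equiv.mulLeft g).hasSum_iff (f := fun q => ∫ z, ‖Φ x q z‖ ^ 2 ∂ν)).2 (hR x)
  have hin : ∀ x y, ⟪R (Q x), R (Q y)⟫_ℂ = ⟪x, y⟫_ℂ := fun x y =>
    (⟨(R ∘L Q).toLinearMap, hQn⟩ : W →ₗᵢ[ℂ] lp (fun _ : G => Lp ℂ 2 ν) 2).inner_map_map x y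
  let e : Fin k → lp (fun _ : Fin k × G => ℂ) 2 := fun i => lp.single 2 (i, (1 : G)) (1 : ℂ)
  let p : Fin k → W := fun i => W.orthogonalProjectionOnto (e i)
  have hp : ∀ (y : W) i, ⟪y, p i⟫_ℂ = conj (y.1 (i, 1)) := fun y i => by
    rw [Submodule.inner_orthogonalProjectionOnto_eq_of_mem_left, lp.inner_single_right]
    simp
  have hd : ∀ i, 1 - (Metric.infDist (e i) (W : Set _)) ^ 2 = ‖p i‖ ^ 2 := fun i => by
    have h1 : ‖e i‖ = 1 := by rw [lp.norm_single (by norm_num)]; simp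
    have h2 : Metric.infDist (e i) (W : Set _) = ‖e i - W.starProjection (e i)‖ := by
      rw [Submodule.starProjection_minimal, Metric.infDist_eq_iInf]
      simp only [dist_eq_norm]
      rfl
    have h3 := Submodule.norm_sq_eq_add_norm_sq_starProjection (e i) W
    rw [Submodule.starProjection_orthogonal_val, h1] at h3
    have h4 : ‖p i‖ = ‖W.starProjection (e i)‖ := rfl
    rw [h2, h4]
    linarith
  have hpt : ∀ᵐ z ∂ν, K z = ∑' a : Fin k × G, ((‖Φ (Q (p a.1)) a.2⁻¹ z‖ ^ 2 : ℝ) : ℂ) := by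
    filter_upwards [hK] with z ⟨κ, hκ, hrep⟩
    obtain ⟨y, rfl⟩ := hQs κ
    have h1 : ∀ x, Φ (Q x) 1 z = ⟪y, x⟫_ℂ := fun x => by
      rw [← hin]; exact (hrep _).unique (hRi _ _)
    have h2 : ∀ a : Fin k × G, ‖Φ (Q (p a.1)) a.2⁻¹ z‖ = ‖y.1 a‖ := fun a => by
      have h3 := he a.2⁻¹ _ _ (hτ a.2⁻¹ (Q (p a.1))) 1
      rw [mul_one, ← hQe _ (hτR _)] at h3
      obtain ⟨y, rfl⟩ := (τ a.2⁻¹).surjective y
      rw [← h3, h1, LinearIsometryEquiv.inner_map_map, hp, Complex.norm_conj,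
        hτ a.2⁻¹ y a.1 a.2, inv_mul_cancel]
    simp only [h2]
    rw [hκ, h1, ← Complex.ofReal_tsum, (lp_hasSum_sq y.1).tsum_eq]
    refine (inner_self_eq_norm_sq_to_K (𝕜 := ℂ) y).trans ?_
    simp
  have hsum : HasSum (fun a : Fin k × G => ∫ z, ‖Φ (Q (p a.1)) a.2⁻¹ z‖ ^ 2 ∂ν)
      (∑ i, ‖p i‖ ^ 2) := by
    have h1 : ∀ i, HasSum (fun g : G => ∫ z, ‖Φ (Q (p i)) g⁻¹ z‖ ^ 2 ∂ν) (‖p i‖ ^ 2) := fun i => by
      rw [← hQn]
      exact ((Equiv.inv G).hasSum_iff (f := fun q => ∫ z, ‖Φ (Q (p i)) q z‖ ^ 2 ∂ν)).2 (hR _)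
    have h2 : Summable fun a : Fin k × G => ∫ z, ‖Φ (Q (p a.1)) a.2⁻¹ z‖ ^ 2 ∂ν :=
      (summable_prod_of_nonneg fun a => integral_nonneg fun z => sq_nonneg _).2
        ⟨fun i => (h1 i).summable, Summable.of_finite⟩
    rw [(hasSum_fintype _).unique (h2.hasSum.prod_fiberwise h1)]
    exact h2.hasSum
  have hint := hasSum_integral_of_summable_integral_norm (μ := ν)
    (F := fun (a : Fin k × G) z => ((‖Φ (Q (p a.1)) a.2⁻¹ z‖ ^ 2 : ℝ) : ℂ))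
    (fun a => ((hm _ _).integrable_norm_pow (by norm_num)).ofReal) (by
      simpa using hsum.summable)
  rw [integral_congr_ae hpt, ← hint.tsum_eq]
  simp only [integral_complex_ofReal]
  rw [← Complex.ofReal_tsum, hsum.tsum_eq]
  exact congrArg _ (Finset.sum_congr rfl fun i _ => hd i)

end Pool.Agent.MP_54e5d7_al.Atc
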