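import Pool.Agent.MP_54e5d7_al.atc.Base
import Pool.Agent.MP_54e5d7_al.atc.Hol1
import Pool.Agent.MP_54e5d7_al.atc.Meas1

/-!
PROJECT ATC, row DIM: values are bounded by integrals over the fundamental domain.
-/

set_option autoImplicit false
open scoped ENNReal Topology
open Set Filter MeasureTheory Metric

namespace Pool.Agent.MP_54e5d7_al.Atc

theorem Hol.measurable {f : C2 → ℂ} (hf : Hol f) : Measurable f := by
  classical
  have h := ContinuousOn.measurable_piecewise (f := f) (g := f) hf.2.continuousOn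
    ((continuousOn_const (c := (0 : ℂ))).congr fun z hz => hf.1 z hz) (isOpen_Bl 1).measurableSet
  rwa [piecewise_same] at h

theorem continuous_wt {t : ℝ} (ht : 0 ≤ t) : Continuous fun z : C2 => (1 - nsq z) ^ t :=
  (continuous_const.sub continuous_nsq).rpow_const fun _ => Or.inr ht

theorem intOn {E : Type} [NormedAddCommGroup E] {h : C2 → E} (hh : ContinuousOn h B) {F : Set C2}
    (hF : MeasurableSet F) {r : ℝ} (hr : r < 1) (hFr : F ⊆ Bl r) : IntegrableOn h F mu :=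
  ContinuousOn.integrableOn_of_subset_isCompact (K := {z : C2 | nsq z ≤ r})
    (hh.mono fun _ hz => lt_of_le_of_lt hz hr) (isCompact_nsq_le r) hF
    (fun z hz => (le_of_lt (hFr hz) : nsq z ≤ r)) ((measure_mono hFr).trans_lt (mu_Bl_lt_top hr)).ne

variable {n : ℕ} {U : Type} [Group U] (C : Cover n U) {Γ : Subgroup SU21}

theorem Cover.low (hn : 0 < n) (hΓ : Lat Γ) {F : Set C2} (hF : FD Γ F) (s : ℕ) {r : ℝ}
    (hr : r < 1) :
    ∃ (ι : Type) (_ : Fintype ι) (a : ι → ↥(Γ.comap C.p)) (c : ℝ), 0 ≤ c ∧ ∀ g, Hol g →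
      ∀ y ∈ Bl r, ‖g y‖ ^ 2 ≤
        c * ∑ i, ∫ w in F, ‖C.sl s g (a i) w‖ ^ 2 * (1 - nsq w) ^ ((s : ℝ) / n) ∂mu := by
  obtain ⟨hFm, ⟨r₁, hr₁, hF₁⟩, hFu⟩ := hF
  set r' := (r + 1) / 2 with hr'def
  have hr' : r' < 1 := by linarith
  have ht : 0 ≤ (s : ℝ) / n := by positivity
  obtain ⟨R, hR, hRs⟩ := (isCompact_nsq_le r).exists_cthickening_subset_open (isOpen_Bl r')
    (fun z hz => by
      have : nsq z ≤ r := hz
      show nsq z < r'
      linarith)
  have hT := hΓ.finite_meet (max_lt hr' hr₁)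
  have hlift : ∀ γ : hT.toFinset, ∃ a : ↥(Γ.comap C.p), C.p a = γ.1⁻¹ := fun γ => by
    obtain ⟨a, ha⟩ := C.surj hn γ.1⁻¹
    exact ⟨⟨a, by
      rw [Subgroup.mem_comap, ha]; exact Γ.inv_mem (hT.mem_toFinset.1 γ.2).1⟩, ha⟩
  choose a ha using hlift
  set δ : ℝ := (1 - r') ^ ((s : ℝ) / n) with hδ
  have hδ0 : 0 < δ := Real.rpow_pos_of_pos (by linarith) _
  refine ⟨hT.toFinset, inferInstance, a, (((Real.pi * R ^ 2) ^ 2)⁻¹ * δ⁻¹), by positivity,
    fun g hg y hy => ?_⟩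
  have hball : closedBall y R ⊆ Bl r' :=
    (closedBall_subset_cthickening (show y ∈ {z : C2 | nsq z ≤ r} from (le_of_lt hy : nsq y ≤ r)) R).trans hRs
  have hbB : ball y R ⊆ Bl r' := ball_subset_closedBall.trans hball
  have h1 := hol_sq_le hR (isOpen_Bl 1) (hball.trans (Bl_mono hr'.le)) hg.2
  set h : C2 → ℝ := fun z => ‖g z‖ ^ 2 * (1 - nsq z) ^ ((s : ℝ) / n) with hh
  have hcont : ∀ {f : C2 → ℂ}, Hol f →
      ContinuousOn (fun z => ‖f z‖ ^ 2 * (1 - nsq z) ^ ((s : ℝ) / n)) B := fun hf =>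
    (hf.2.continuousOn.norm.pow 2).mul (continuous_wt ht).continuousOn
  have hnn : ∀ (f : C2 → ℂ), ∀ z ∈ B, 0 ≤ ‖f z‖ ^ 2 * (1 - nsq z) ^ ((s : ℝ) / n) := fun f z hz =>
    mul_nonneg (sq_nonneg _) (Real.rpow_nonneg (sub_pos.2 hz).le _)
  have h2 : δ * ∫ z in ball y R, ‖g z‖ ^ 2 ≤ ∫ z in ball y R, h z ∂mu := by
    have hi := intOn (hcont hg) measurableSet_ball hr' hbB
    have hi2 : IntegrableOn (fun z => ‖g z‖ ^ 2) (ball y R) volume :=
      (((hg.2.continuousOn.norm.pow 2).mono (hball.trans (Bl_mono hr'.le))).integrableOn_compact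
        (isCompact_closedBall y R)).mono_set ball_subset_closedBall
    have hi3 : IntegrableOn (fun z => rho z • h z) (ball y R) volume := by
      refine (ContinuousOn.integrableOn_compact (isCompact_closedBall y R)
        (ContinuousOn.mono (s := B) ?_ (hball.trans (Bl_mono hr'.le)))).mono_set
        ball_subset_closedBall
      refine ContinuousOn.mul (f := rho) ?_ (hcont hg)
      exact (((continuous_const.sub continuous_nsq).pow 3).continuousOn).inv₀ fun z hz =>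
        pow_ne_zero 3 (sub_pos.2 hz).ne'
    rw [integral_mu measurableSet_ball (hbB.trans (Bl_mono hr'.le)), ← integral_const_mul]
    refine setIntegral_mono_on (hi2.const_mul δ) hi3 measurableSet_ball fun z hz => ?_
    have hz1 : nsq z < r' := hbB hz
    have hzB : z ∈ B := Bl_mono hr'.le (hbB hz)
    have h3 : δ ≤ (1 - nsq z) ^ ((s : ℝ) / n) := Real.rpow_le_rpow (by linarith) (by linarith) ht
    have h4 := M1.one_le_rho hzB
    have h5 : δ * ‖g z‖ ^ 2 ≤ h z := by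
      rw [mul_comm]; exact mul_le_mul_of_nonneg_left h3 (sq_nonneg _)
    exact h5.trans (le_mul_of_one_le_left (hnn g z hzB) h4)
  have hhm : Measurable h := (hg.measurable.norm.pow_const 2).mul (continuous_wt ht).measurable
  have h3 : ∫⁻ z in ball y R, ENNReal.ofReal (h z) ∂mu ≤ ∑ γ : hT.toFinset,
      ∫⁻ w in F, ENNReal.ofReal (‖C.sl s g (a γ) w‖ ^ 2 * (1 - nsq w) ^ ((s : ℝ) / n)) ∂mu := by
    have hsub : ball y R ⊆ ⋃ γ : hT.toFinset, act γ.1 ⁻¹' F := fun z hz => by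
      obtain ⟨γ, hγ, -⟩ := hFu z (Bl_mono hr'.le (hbB hz))
      exact mem_iUnion.2 ⟨⟨γ.1, hT.mem_toFinset.2 ⟨γ.2, z, Bl_mono (le_max_left _ _) (hbB hz),
        Bl_mono (le_max_right _ _) (hF₁ hγ)⟩⟩, hγ⟩
    refine (lintegral_mono_set hsub).trans ((lintegral_iUnion_le _ _).trans ?_)
    rw [tsum_fintype]
    refine Finset.sum_le_sum fun γ _ => le_of_eq ?_
    have h4 := (measurePreserving_act γ.1).setLIntegral_comp_preimage hFm
      (f := fun w => ENNReal.ofReal (h (act γ.1⁻¹ w)))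
      (hhm.comp (measurable_act _)).ennreal_ofReal
    calc ∫⁻ z in act γ.1 ⁻¹' F, ENNReal.ofReal (h z) ∂mu
        = ∫⁻ z in act γ.1 ⁻¹' F, ENNReal.ofReal (h (act γ.1⁻¹ (act γ.1 z))) ∂mu := by
          refine lintegral_congr_ae (ae_restrict_of_ae ?_)
          filter_upwards [M1.ae_mem_B] with z hz
          rw [act_inv_act _ hz]
      _ = _ := by
          rw [h4]
          refine setLIntegral_congr_fun hFm fun w hw => ?_
          show ENNReal.ofReal _ = ENNReal.ofReal _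
          rw [C.norm_sl hn s g _ (Bl_mono hr₁.le (hF₁ hw)), ha]
  have h4 : ∫ z in ball y R, h z ∂mu ≤ ∑ γ : hT.toFinset,
      ∫ w in F, ‖C.sl s g (a γ) w‖ ^ 2 * (1 - nsq w) ^ ((s : ℝ) / n) ∂mu := by
    have hae : ∀ (f : C2 → ℂ) (V : Set C2), 0 ≤ᵐ[mu.restrict V]
        fun z => ‖f z‖ ^ 2 * (1 - nsq z) ^ ((s : ℝ) / n) := fun f V =>
      ae_restrict_of_ae (M1.ae_mem_B.mono fun z hz => hnn f z hz)
    rw [← ENNReal.ofReal_le_ofReal_iff
      (Finset.sum_nonneg fun γ _ => integral_nonneg_of_ae (hae _ _)),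
      ENNReal.ofReal_sum_of_nonneg fun γ _ => integral_nonneg_of_ae (hae _ _),
      ofReal_integral_eq_lintegral_ofReal (intOn (hcont hg) measurableSet_ball hr' hbB) (hae _ _)]
    refine h3.trans (le_of_eq (Finset.sum_congr rfl fun γ _ => ?_))
    rw [ofReal_integral_eq_lintegral_ofReal
      (intOn (hcont (C.hol_sl hn s hg.2 _)) hFm hr₁ hF₁) (hae _ _)]
  have hp : 0 < (Real.pi * R ^ 2) ^ 2 := by positivity
  rw [mul_assoc, ← div_eq_inv_mul, le_div_iff₀ hp, ← div_eq_inv_mul, le_div_iff₀ hδ0]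
  calc ‖g y‖ ^ 2 * (Real.pi * R ^ 2) ^ 2 * δ = δ * ((Real.pi * R ^ 2) ^ 2 * ‖g y‖ ^ 2) := by ring
    _ ≤ δ * ∫ z in ball y R, ‖g z‖ ^ 2 := mul_le_mul_of_nonneg_left h1 hδ0.le
    _ ≤ _ := h2.trans h4

end Pool.Agent.MP_54e5d7_al.Atc
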