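import Pool.Agent.MP_54e5d7_al.atc.Base
import Pool.Agent.MP_54e5d7_al.atc.Hol1
import Pool.Agent.MP_54e5d7_al.atc.dim.Core

/-!
PROJECT ATC, row DIM: the upper bound, by the closed graph theorem.
-/

set_option autoImplicit false
open scoped ENNReal Topology
open Set Filter

namespace Pool.Agent.MP_54e5d7_al.Atc

variable {n : ℕ} {U : Type} [Group U] {C : Cover n U} {Γ : Subgroup SU21} {G : Type} [Group G]
  (Q : Quo C Γ G)

theorem exists_lift (hn : 0 < n) {γ : SU21} (hγ : γ ∈ Γ) : ∃ a : ↥(Γ.comap C.p), C.p a = γ := by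
  obtain ⟨a, ha⟩ := C.surj hn γ
  exact ⟨⟨a, by rw [Subgroup.mem_comap, ha]; exact hγ⟩, ha⟩

theorem Quo.sl_σ_one {s : ℕ} {f : C2 → ℂ} (hf : Q.Aut s f) :
    C.sl s f (Q.σ 1) = f := hf.2 _ (Q.sec 1)

/-- a uniform bound of all translates on a large ball bounds the function on every ball -/
theorem Quo.bound_of_unif (hn : 0 < n) {s : ℕ} {r : ℝ}
    (hc : ∀ z ∈ B, ∃ γ ∈ Γ, act γ z ∈ Bl r) {r' : ℝ} (hr' : r' < 1) :
    ∃ c : ℝ, 0 ≤ c ∧ ∀ f, Q.Aut s f → ∀ M : ℝ,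
      (∀ q, ∀ z ∈ Bl r, ‖C.sl s f (Q.σ q) z‖ ≤ M) → ∀ z ∈ Bl r', ‖f z‖ ≤ c * M := by
  have hc0 : 0 ≤ ((1 - r') ^ ((s : ℝ) / n))⁻¹ := inv_nonneg.2 (Real.rpow_nonneg (by linarith) _)
  refine ⟨Real.sqrt ((1 - r') ^ ((s : ℝ) / n))⁻¹, Real.sqrt_nonneg _, fun f hf M hM z hz => ?_⟩
  obtain ⟨γ, hγ, hγz⟩ := hc z (Bl_mono hr'.le hz)
  obtain ⟨a, ha⟩ := exists_lift (C := C) hn hγ
  have h1 : f = C.sl s (C.sl s f (Q.σ (Q.π a)⁻¹)) a := by
    rw [Q.sl_σ_sl hf, inv_mul_cancel, Q.sl_σ_one hf]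
  have h2 := C.norm_sl_le hn s (C.sl s f (Q.σ (Q.π a)⁻¹)) a hr' hz
  rw [← h1, ha] at h2
  have h3 := hM (Q.π a)⁻¹ _ hγz
  have hM0 : 0 ≤ M := (norm_nonneg _).trans h3
  refine (abs_le_of_sq_le_sq' ?_ (by positivity)).2
  rw [mul_pow, Real.sq_sqrt hc0]
  exact h2.trans (mul_le_mul_of_nonneg_left (pow_le_pow_left₀ (norm_nonneg _) h3 2) hc0)

theorem Quo.up (hn : 0 < n) (hΓ : Lat Γ) {s : ℕ} {W : Type} [NormedAddCommGroup W]
    [NormedSpace ℂ W] [CompleteSpace W] (Ψ : W →ₗ[ℂ] C2 → ℂ) (hB : ∀ x, Q.Berg s (Ψ x))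
    {ι : Type} (L : ι → (C2 → ℂ) →ₗ[ℂ] ℂ) {r₀ c₀ : ℝ} (hr₀ : r₀ < 1)
    (hL : ∀ f, Q.Aut s f → ∀ M : ℝ, (∀ z ∈ Bl r₀, ‖f z‖ ≤ M) → ∀ i, ‖L i f‖ ≤ c₀ * M)
    (hinj : ∀ f, Q.Berg s f → (∀ i q, L i (C.sl s f (Q.σ q)) = 0) → f = 0)
    (hcont : ∀ i q, Continuous fun x => L i (C.sl s (Ψ x) (Q.σ q))) {r₁ : ℝ} (hr₁ : r₁ < 1) :
    ∃ c : ℝ, ∀ x, ∃ M : G → ℝ, Summable (fun q => M q ^ 2) ∧ ∑' q, M q ^ 2 ≤ c * ‖x‖ ^ 2 ∧
      ∀ q, ∀ z ∈ Bl r₁, ‖C.sl s (Ψ x) (Q.σ q) z‖ ≤ M q := by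
  obtain ⟨r₂, hr₂, hc₂⟩ := hΓ.cocpt
  set r := max r₀ (max r₁ r₂) with hrdef
  have hr : r < 1 := max_lt hr₀ (max_lt hr₁ hr₂)
  have h0 : Bl r₀ ⊆ Bl r := Bl_mono (le_max_left _ _)
  have h1 : Bl r₁ ⊆ Bl r := Bl_mono ((le_max_left _ _).trans (le_max_right _ _))
  have hc : ∀ z ∈ B, ∃ γ ∈ Γ, act γ z ∈ Bl r := fun z hz => by
    obtain ⟨γ, hγ, h⟩ := hc₂ z hz
    exact ⟨γ, hγ, Bl_mono ((le_max_right _ _).trans (le_max_right _ _)) h⟩
  have hex : ∀ x : W, ∃ y : lp (fun _ : G => lp (fun _ : Bl r => ℂ) ∞) 2,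
      ∀ q (z : Bl r), y q z = C.sl s (Ψ x) (Q.σ q) z := fun x => by
    obtain ⟨M, hM, hb⟩ := (hB x).2 r hr
    let t : G → lp (fun _ : Bl r => ℂ) ∞ := fun q => ⟨fun z => C.sl s (Ψ x) (Q.σ q) z,
      memℓp_infty ⟨M q, by rintro _ ⟨z, rfl⟩; exact hb q z z.2⟩⟩
    refine ⟨⟨t, memlp_two.2 (Summable.of_nonneg_of_le (fun q => sq_nonneg _) (fun q => ?_) hM)⟩,
      fun q z => rfl⟩
    rw [← sq_abs (M q)]
    have h2 : ‖t q‖ ≤ |M q| := lp.norm_le_of_forall_le (f := t q) (abs_nonneg _)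
      fun z : Bl r => (hb q z.1 z.2).trans (le_abs_self _)
    exact pow_le_pow_left₀ (norm_nonneg _) h2 2
  choose T₀ hT₀ using hex
  have hext : ∀ y y' : lp (fun _ : G => lp (fun _ : Bl r => ℂ) ∞) 2,
      (∀ q z, y q z = y' q z) → y = y' := fun y y' h => lp.ext (funext fun q => lp.ext (funext (h q)))
  let T : W →ₗ[ℂ] lp (fun _ : G => lp (fun _ : Bl r => ℂ) ∞) 2 :=
    { toFun := T₀
      map_add' := fun x y => hext _ _ fun q z => by simp [hT₀, C.sl_add]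
      map_smul' := fun a x => hext _ _ fun q z => by simp [hT₀, C.sl_smul] }
  have hT : ∀ x q (z : Bl r), T x q z = C.sl s (Ψ x) (Q.σ q) z := hT₀
  have hev : ∀ (y : lp (fun _ : G => lp (fun _ : Bl r => ℂ) ∞) 2) q z, ‖y q z‖ ≤ ‖y‖ :=
    fun y q z => (lp.norm_apply_le_norm (by simp) _ z).trans (lp.norm_apply_le_norm (by simp) y q)
  have hTc : Continuous T := by
    refine T.continuous_of_seq_closed_graph fun u x y hu hy => ?_
    have hest : ∀ r' < (1 : ℝ), ∃ c : ℝ, 0 ≤ c ∧ ∀ a b, ∀ z ∈ Bl r',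
        ‖Ψ (u a) z - Ψ (u b) z‖ ≤ c * ‖T (u a) - T (u b)‖ := fun r' hr' => by
      obtain ⟨c, hc0, h⟩ := Q.bound_of_unif hn (s := s) hc hr'
      refine ⟨c, hc0, fun a b z hz => ?_⟩
      have h2 := h (Ψ (u a - u b)) (hB _).1 ‖T (u a - u b)‖
        (fun q w hw => by rw [← hT _ q ⟨w, hw⟩]; exact hev _ _ _) z hz
      simpa only [map_sub, Pi.sub_apply] using h2
    have hmem : ∀ z ∈ B, ∃ r' < (1 : ℝ), z ∈ Bl r' := fun z hz => by
      have : nsq z < 1 := hz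
      exact ⟨(nsq z + 1) / 2, by linarith, show nsq z < _ by linarith⟩
    have hlim : ∀ z, ∃ w, Tendsto (fun a => Ψ (u a) z) atTop (𝓝 w) := fun z => by
      by_cases hz : z ∈ B
      · obtain ⟨r', hr', hz'⟩ := hmem z hz
        obtain ⟨c, hc0, h⟩ := hest r' hr'
        refine cauchySeq_tendsto_of_complete (Metric.cauchySeq_iff.2 fun ε hε => ?_)
        obtain ⟨N, hN⟩ := Metric.cauchySeq_iff.1 hy.cauchySeq (ε / (c + 1)) (by positivity)
        refine ⟨N, fun a ha b hb => ?_⟩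
        have h2 := hN a ha b hb
        rw [dist_eq_norm, lt_div_iff₀ (by positivity)] at h2
        rw [dist_eq_norm]
        have h3 := h a b z hz'
        have h4 : ‖T (u a) - T (u b)‖ * (c + 1) < ε := h2
        nlinarith [norm_nonneg (T (u a) - T (u b))]
      · exact ⟨0, by simpa only [(hB _).1.1.1 z hz] using tendsto_const_nhds⟩
    choose f hf using hlim
    have hsl : ∀ (a : U) z, Tendsto (fun m => C.sl s (Ψ (u m)) a z) atTop (𝓝 (C.sl s f a z)) := by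
      intro a z
      by_cases hz : z ∈ B
      · simp only [C.sl_of_mem s _ a hz]
        exact (hf _).div_const _
      · simp only [C.sl_of_notMem s _ a hz]
        exact tendsto_const_nhds
    have hy0 : Tendsto (fun a => ‖T (u a) - y‖) atTop (𝓝 0) := tendsto_iff_norm_sub_tendsto_zero.1 hy
    have hfA : Q.Aut s f := by
      refine ⟨⟨fun z hz => ?_, ?_⟩, fun k hk => funext fun z => ?_⟩
      · refine tendsto_nhds_unique (hf z) ?_
        simpa only [(hB _).1.1.1 z hz] using tendsto_const_nhds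
      · refine hol_limit (l := atTop) (F := fun a => Ψ (u a)) (isOpen_Bl 1)
          (Eventually.of_forall fun a => (hB _).1.1.2) ?_
        refine Metric.tendstoLocallyUniformlyOn_iff.2 fun ε hε z hz => ?_
        obtain ⟨r', hr', hz'⟩ := hmem z hz
        obtain ⟨c, hc0, h⟩ := hest r' hr'
        refine ⟨Bl r', mem_nhdsWithin_of_mem_nhds ((isOpen_Bl r').mem_nhds hz'), ?_⟩
        have h2 : Tendsto (fun a => c * ‖T (u a) - y‖) atTop (𝓝 0) := by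
          simpa using hy0.const_mul c
        filter_upwards [h2.eventually (gt_mem_nhds hε)] with a ha w hw
        rw [dist_comm, dist_eq_norm]
        refine lt_of_le_of_lt (le_of_tendsto_of_tendsto' (b := atTop)
          ((tendsto_const_nhds.sub (hf w)).norm)
          (((tendsto_const_nhds.sub hy).norm).const_mul c) fun b => h a b w hw) ha
      · refine tendsto_nhds_unique (hsl k z) ?_
        simpa only [(hB _).1.2 k hk] using hf z
    have hfy : ∀ q (z : Bl r), y q z = C.sl s f (Q.σ q) z := fun q z => by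
      refine tendsto_nhds_unique ?_ (hsl (Q.σ q) z)
      refine tendsto_iff_norm_sub_tendsto_zero.2 (squeeze_zero (fun _ => norm_nonneg _)
        (fun a => ?_) hy0)
      rw [← hT]
      exact hev (T (u a) - y) q z
    have hfB : Q.Berg s f :=
      Q.berg_of_bound hn hΓ hfA hr subset_rfl hc (lp_hasSum_sq y).summable fun q z hz => by
        rw [← hfy q ⟨z, hz⟩]
        exact lp.norm_apply_le_norm (by simp) _ _
    have hfx : f - Ψ x = 0 := hinj _ (hfB.sub Q (hB x)) fun i q => by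
      rw [C.sl_sub, map_sub, sub_eq_zero]
      refine tendsto_nhds_unique ?_ (((hcont i q).tendsto x).comp hu)
      refine tendsto_iff_norm_sub_tendsto_zero.2 (squeeze_zero (fun _ => norm_nonneg _)
        (g := fun a => c₀ * ‖T (u a) - y‖) (fun a => ?_) (by simpa using hy0.const_mul c₀))
      have h2 := hL _ (((hB (u a)).sub Q hfB).1.sl Q hn (Q.σ q)) ‖T (u a) - y‖ (fun z hz => by
        rw [C.sl_sub, Pi.sub_apply, ← hT _ q ⟨z, h0 hz⟩, ← hfy q ⟨z, h0 hz⟩]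
        exact hev (T (u a) - y) q _) i
      rw [C.sl_sub, map_sub] at h2
      exact h2
    refine hext _ _ fun q z => ?_
    rw [hfy, hT, sub_eq_zero.1 hfx]
  let T' : W →L[ℂ] lp (fun _ : G => lp (fun _ : Bl r => ℂ) ∞) 2 := ⟨T, hTc⟩
  refine ⟨‖T'‖ ^ 2, fun x => ⟨fun q => ‖T x q‖, (lp_hasSum_sq _).summable, ?_, fun q z hz => ?_⟩⟩
  · rw [(lp_hasSum_sq _).tsum_eq, ← mul_pow]
    exact pow_le_pow_left₀ (norm_nonneg _) (T'.le_opNorm x) 2
  · rw [← hT x q ⟨z, h1 hz⟩]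
    exact lp.norm_apply_le_norm (by simp) _ _

end Pool.Agent.MP_54e5d7_al.Atc
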