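import Mathlib
import Pool.Agent.MP_54e5d7_al.atc.Spec
import Pool.Agent.MP_54e5d7_al.atc.dim.Up
import Pool.Agent.MP_54e5d7_al.atc.dim.Low

/-!
PROJECT ATC, row DIM: the dimension of the kernel is the trace of the reproducing kernel.
-/

set_option autoImplicit false
open scoped ENNReal Topology ComplexConjugate
open Set Filter MeasureTheory

namespace Pool.Agent.MP_54e5d7_al.Atc

theorem hasSum_fin_prod {G : Type} {k : ℕ} {f : Fin k × G → ℝ} (h0 : ∀ p, 0 ≤ f p)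
    {S : Fin k → ℝ} (h : ∀ i, HasSum (fun q => f (i, q)) (S i)) : HasSum f (∑ i, S i) := by
  have h2 : Summable f :=
    (summable_prod_of_nonneg h0).2 ⟨fun i => (h i).summable, Summable.of_finite⟩
  rw [(hasSum_fintype _).unique (h2.hasSum.prod_fiberwise h)]
  exact h2.hasSum

theorem Quo.countable {n : ℕ} {U : Type} [Group U] {C : Cover n U} {Γ : Subgroup SU21}
    {G : Type} [Group G] (Q : Quo C Γ G) (hn : 0 < n) (hΓ : Lat Γ) : Countable G := by
  have := hΓ.countable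
  have h1 : Finite C.p.ker := Nat.finite_of_card_ne_zero (by rw [C.card_ker hn]; exact hn.ne')
  choose a ha using fun γ : Γ => exists_lift (C := C) hn γ.2
  refine Function.Surjective.countable (f := fun x : Γ × C.p.ker =>
    Q.π (a x.1 * ⟨x.2.1, by rw [Subgroup.mem_comap, x.2.2]; exact Γ.one_mem⟩)) fun q => ?_
  refine ⟨(⟨C.p (Q.σ q), (Q.σ q).2⟩, ⟨((a ⟨C.p (Q.σ q), (Q.σ q).2⟩)⁻¹ * Q.σ q : ↥(Γ.comap C.p)),
    by simp [MonoidHom.mem_ker, ha]⟩), ?_⟩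
  simp only [Subtype.coe_eta, mul_inv_cancel_left, Q.sec]

/-- the square-summable kernel as a submodule -/
def kerSub {G : Type} [Group G] {k l : ℕ} (A : Matrix (Fin k) (Fin l) (G →₀ ℂ)) :
    Submodule ℂ (lp (fun _ : Fin k × G => ℂ) 2) where
  carrier := {x | KerEq A x}
  add_mem' := fun {x y} hx hy j g => by
    have h := congrArg₂ (· + ·) (hx j g) (hy j g)
    simpa [Finsupp.sum, add_mul, Finset.sum_add_distrib] using h
  zero_mem' := fun j g => by simp [Finsupp.sum]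
  smul_mem' := fun c x hx j g => by
    have h := congrArg (c * ·) (hx j g)
    simpa [Finsupp.sum, Finset.mul_sum, mul_assoc] using h

theorem isClosed_kerSub {G : Type} [Group G] {k l : ℕ} (A : Matrix (Fin k) (Fin l) (G →₀ ℂ)) :
    IsClosed (kerSub A : Set (lp (fun _ : Fin k × G => ℂ) 2)) := by
  have h : (kerSub A : Set (lp (fun _ : Fin k × G => ℂ) 2)) = ⋂ (j : Fin l) (g : G),
      {x | ∑ i : Fin k, (A i j).sum (fun h c => x (i, g * h⁻¹) * c) = 0} := by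
    ext x
    simp only [mem_iInter]
    rfl
  rw [h]
  refine isClosed_iInter fun j => isClosed_iInter fun g => isClosed_eq ?_ continuous_const
  refine continuous_finsetSum _ fun i _ => continuous_finsetSum _ fun h _ => ?_
  exact (lp.evalCLM ℂ (fun _ : Fin k × G => ℂ) 2 (i, g * h⁻¹)).continuous.mul continuous_const

open Classical in
theorem dim : DimStmt := by
  intro n U _ C Γ G _ Q s F κ k l A Λ hn hΓ hF hT hκ hrep
  have := Q.countable hn hΓ
  have hWc := isClosed_kerSub A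
  have : CompleteSpace (kerSub A) := hWc.completeSpace_coe
  obtain ⟨r₀, hr₀, c₀, hbd⟩ := hT.bdd
  obtain ⟨r₁, hr₁, hF₁⟩ := hF.2.1
  have hFm := hF.1
  have hFB : F ⊆ B := hF₁.trans (Bl_mono hr₁.le)
  have ht : 0 ≤ (s : ℝ) / n := by positivity
  choose Ψ₀ hΨB hΨΛ using fun x : kerSub A => hT.surj x.1 x.2
  have huniq : ∀ (x : kerSub A) f, Q.Berg s f → (∀ i q, Λ i (C.sl s f (Q.σ q)) = x.1 (i, q)) →
      Ψ₀ x = f := fun x f hf h => sub_eq_zero.1 (hT.inj _ ((hΨB x).sub Q hf) fun i q => by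
    rw [C.sl_sub, map_sub, hΨΛ, h, sub_self])
  let Ψ : kerSub A →ₗ[ℂ] C2 → ℂ :=
    { toFun := Ψ₀
      map_add' := fun x y => huniq _ _ ((hΨB x).add Q (hΨB y)) fun i q => by
        rw [C.sl_add, map_add, hΨΛ, hΨΛ]; rfl
      map_smul' := fun a x => huniq _ _ ((hΨB x).smul Q a) fun i q => by
        rw [RingHom.id_apply, C.sl_smul, map_smul, hΨΛ]; rfl }
  have hB : ∀ x, Q.Berg s (Ψ x) := hΨB
  have hΛ : ∀ x i q, Λ i (C.sl s (Ψ x) (Q.σ q)) = x.1 (i, q) := hΨΛ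
  have honto : ∀ f, Q.Berg s f → ∃ x, Ψ x = f := fun f hf => by
    obtain ⟨M, hM, hb⟩ := hf.2 r₀ hr₀
    have h1 : Summable fun p : Fin k × G => ‖Λ p.1 (C.sl s f (Q.σ p.2))‖ ^ 2 := by
      refine Summable.of_nonneg_of_le (fun _ => sq_nonneg _) (fun p => ?_)
        (hasSum_fin_prod (f := fun p : Fin k × G => c₀ ^ 2 * M p.2 ^ 2) (fun _ => by positivity)
          fun _ => (hM.mul_left _).hasSum).summable
      rw [← mul_pow]
      exact pow_le_pow_left₀ (norm_nonneg _) (hbd _ (hf.1.sl Q hn _) _ (hb p.2) p.1) 2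
    exact ⟨⟨⟨fun p => Λ p.1 (C.sl s f (Q.σ p.2)), memlp_two.2 h1⟩, hT.ker f hf⟩,
      huniq _ f hf fun _ _ => rfl⟩
  let ω : C2 → ℂ := fun z => (Real.sqrt ((1 - nsq z) ^ ((s : ℝ) / n)) : ℝ)
  have hw0 : ∀ z ∈ B, 0 ≤ (1 - nsq z) ^ ((s : ℝ) / n) := fun z hz =>
    Real.rpow_nonneg (sub_pos.2 hz).le _
  have hωc : Continuous ω := Complex.continuous_ofReal.comp (continuous_wt ht).sqrt
  have hωn : ∀ z ∈ B, ‖ω z‖ ^ 2 = (1 - nsq z) ^ ((s : ℝ) / n) := fun z hz => by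
    simp only [ω, Complex.norm_real, Real.norm_eq_abs, sq_abs, Real.sq_sqrt (hw0 z hz)]
  have hωω : ∀ z ∈ B, ω z * ω z = (((1 - nsq z) ^ ((s : ℝ) / n) : ℝ) : ℂ) := fun z hz => by
    simp only [ω, ← Complex.ofReal_mul, Real.mul_self_sqrt (hw0 z hz)]
  have hωs : ∀ z, conj (ω z) = ω z := fun z => Complex.conj_ofReal _
  let Φ : kerSub A →ₗ[ℂ] G → C2 → ℂ :=
    { toFun := fun x q z => C.sl s (Ψ x) (Q.σ q) z * ω z
      map_add' := fun x y => by
        funext q z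
        simp only [map_add, C.sl_add, Pi.add_apply, add_mul]
      map_smul' := fun a x => by
        funext q z
        simp only [map_smul, C.sl_smul, Pi.smul_apply, smul_eq_mul, mul_assoc, RingHom.id_apply] }
  have hΦ : ∀ x q z, Φ x q z = C.sl s (Ψ x) (Q.σ q) z * ω z := fun _ _ _ => rfl
  have hΦc : ∀ x q, ContinuousOn (Φ x q) B := fun x q =>
    (C.hol_sl hn s (hB x).1.1.2 _).2.continuousOn.mul hωc.continuousOn
  have hΦi : ∀ x q, IntegrableOn (fun z => ‖Φ x q z‖ ^ 2) F mu := fun x q =>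
    intOn ((hΦc x q).norm.pow 2) hFm hr₁ hF₁
  have hΦn : ∀ x q, ∀ z ∈ F, ‖Φ x q z‖ ^ 2 =
      ‖C.sl s (Ψ x) (Q.σ q) z‖ ^ 2 * (1 - nsq z) ^ ((s : ℝ) / n) := fun x q z hz => by
    rw [hΦ, norm_mul, mul_pow, hωn z (hFB hz)]
  have hI0 : ∀ x q, 0 ≤ ∫ z in F, ‖Φ x q z‖ ^ 2 ∂mu := fun x q =>
    integral_nonneg fun _ => sq_nonneg _
  obtain ⟨c₁, hup⟩ := Q.up hn hΓ Ψ hB Λ hr₀ hbd hT.inj (fun i q => by
    simp only [hΛ]
    exact (lp.evalCLM ℂ (fun _ : Fin k × G => ℂ) 2 (i, q)).continuous.comp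
      continuous_subtype_val) hr₁
  have hmu : mu F ≠ ∞ := ((measure_mono hF₁).trans_lt (mu_Bl_lt_top hr₁)).ne
  have hup' : ∀ x, (Summable fun q => ∫ z in F, ‖Φ x q z‖ ^ 2 ∂mu) ∧
      ∑' q, ∫ z in F, ‖Φ x q z‖ ^ 2 ∂mu ≤ mu.real F * c₁ * ‖x‖ ^ 2 := fun x => by
    obtain ⟨M, hM, hMc, hb⟩ := hup x
    have h1 : ∀ q, ∫ z in F, ‖Φ x q z‖ ^ 2 ∂mu ≤ mu.real F * M q ^ 2 := fun q => by
      rw [← smul_eq_mul, ← setIntegral_const]
      refine setIntegral_mono_on (hΦi x q) (integrableOn_const hmu) hFm fun z hz => ?_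
      have hz1 : nsq z < 1 := hFB hz
      have h2 : (1 - nsq z) ^ ((s : ℝ) / n) ≤ 1 :=
        Real.rpow_le_one (by linarith) (by linarith [nsq_nonneg z]) ht
      rw [hΦn x q z hz]
      exact (mul_le_of_le_one_right (sq_nonneg _) h2).trans
        (pow_le_pow_left₀ (norm_nonneg _) (hb q z (hF₁ hz)) 2)
    have h2 := Summable.of_nonneg_of_le (hI0 x) h1 (hM.mul_left _)
    refine ⟨h2, (h2.tsum_le_tsum h1 (hM.mul_left _)).trans ?_⟩
    rw [tsum_mul_left, mul_assoc]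
    exact mul_le_mul_of_nonneg_left hMc measureReal_nonneg
  obtain ⟨ι, _, a, c₂, hc₂, hlow⟩ := C.low hn hΓ hF s hr₀
  have hlow' : ∀ x : kerSub A, ‖x‖ ^ 2 ≤ (k * (c₀ ^ 2 * (c₂ * Fintype.card ι))) *
      ∑' q, ∫ z in F, ‖Φ x q z‖ ^ 2 ∂mu := fun x => by
    have hnn : ∀ q, 0 ≤ c₂ * ∑ j, ∫ z in F, ‖Φ x (q * Q.π (a j)) z‖ ^ 2 ∂mu := fun q =>
      mul_nonneg hc₂ (Finset.sum_nonneg fun _ _ => hI0 _ _)
    have h1 : ∀ p : Fin k × G, ‖x.1 p‖ ^ 2 ≤
        c₀ ^ 2 * (c₂ * ∑ j, ∫ z in F, ‖Φ x (p.2 * Q.π (a j)) z‖ ^ 2 ∂mu) := fun p => by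
      rw [← Real.sq_sqrt (hnn p.2), ← mul_pow, ← hΛ x p.1 p.2]
      refine pow_le_pow_left₀ (norm_nonneg _) (hbd _ ((hB x).1.sl Q hn _) _ (fun y hy => ?_) _) 2
      refine Real.le_sqrt_of_sq_le ((hlow _ (C.hol_sl hn s (hB x).1.1.2 _) y hy).trans_eq ?_)
      refine congrArg _ (Finset.sum_congr rfl fun j _ => setIntegral_congr_fun hFm fun w hw => ?_)
      show _ = ‖Φ x _ w‖ ^ 2
      rw [hΦn x _ w hw, Q.sl_σ_sl (hB x).1]
    have h2 := hasSum_fin_prod (f := fun p : Fin k × G =>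
      c₀ ^ 2 * (c₂ * ∑ j, ∫ z in F, ‖Φ x (p.2 * Q.π (a j)) z‖ ^ 2 ∂mu))
      (fun p => mul_nonneg (sq_nonneg _) (hnn _)) fun _ =>
        ((hasSum_sum fun j _ => ((Equiv.mulRight (Q.π (a j))).hasSum_iff
          (f := fun q => ∫ z in F, ‖Φ x q z‖ ^ 2 ∂mu)).2 (hup' x).1.hasSum).mul_left c₂).mul_left _
    refine (hasSum_le h1 (lp_hasSum_sq x.1) h2).trans_eq ?_
    simp only [Finset.sum_const, Finset.card_univ, Fintype.card_fin, nsmul_eq_mul]
    ring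
  have key := core (kerSub A) hWc (fun g x y hx h j g' => by
      simp only [h, ← mul_assoc]
      exact hx j (g * g')) (mu.restrict F) Φ
    (fun x q => (memLp_two_iff_integrable_sq_norm (intOn (hΦc x q) hFm hr₁ hF₁).1).2 (hΦi x q))
    (fun g x y h q => by
      have h1 : Ψ y = C.sl s (Ψ x) (Q.σ g) := huniq y _ ((hB x).sl Q hn _) fun i q => by
        rw [Q.sl_σ_mul (hB x).1, hΛ, h]
      funext z
      rw [hΦ, hΦ, h1, Q.sl_σ_mul (hB x).1])
    (fun x => (hup' x).1) _ _ (fun x => (hup' x).2) hlow'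
    (fun z => κ z z * (((1 - nsq z) ^ ((s : ℝ) / n) : ℝ) : ℂ))
    (ae_restrict_of_forall_mem hFm fun z hz => by
      obtain ⟨x₀, hx₀⟩ := honto _ (hκ z (hFB hz))
      refine ⟨ω z • x₀, ?_, fun x => ?_⟩
      · rw [hΦ, Q.sl_σ_one (hB _).1, map_smul, hx₀, Pi.smul_apply, smul_eq_mul, ← hωω z (hFB hz)]
        ring
      · rw [hΦ, Q.sl_σ_one (hB _).1]
        refine Eq.subst (motive := fun t : G → ℂ => HasSum t _) (funext fun q => Eq.symm ?_)
          ((hrep z (hFB hz) _ (hB x)).mul_right (ω z))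
        rw [integral_mu hFm hFB, ← integral_mul_const]
        refine setIntegral_congr_fun hFm fun w hw => ?_
        simp only [hΦ, map_smul, hx₀, C.sl_smul, Pi.smul_apply, smul_eq_mul, map_mul, hωs,
          Complex.real_smul, Complex.ofReal_mul, ← hωω w (hFB hw)]
        ring)
  rw [integral_mu hFm hFB] at key
  refine Eq.trans key (setIntegral_congr_fun hFm fun z _ => ?_)
  simp only [Complex.real_smul, Complex.ofReal_mul]
  ring

end Pool.Agent.MP_54e5d7_al.Atc
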